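import Mathlib
import Pool.Agent.Helper45.MalcevDefs
import Pool.Agent.Helper45.MalcevMain

/-!
Finite extensions of subgroups of direct products of a virtually free and a virtually nilpotent
group are Malcev coherent.
-/

set_option autoImplicit false
set_option linter.style.haveILetI false

namespace Pool.Agent.Results.MP_7f4e02_al.FiniteExtensionsOfProducts

open Pool.Agent.Helper45
open Subgroup (center)

universe u v w

/-- In a free group on at least two generators no nontrivial element is central. -/
theorem center_free {α : Type u} {a b : α} (hab : a ≠ b) (z : FreeGroup α)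
    (hz : ∀ g, g * z = z * g) : z = 1 := by
  classical
  by_contra hz1
  have hw : z.toWord ≠ [] := fun h => hz1 (FreeGroup.toWord_eq_nil_iff.1 h)
  have hred : FreeGroup.IsReduced z.toWord := FreeGroup.isReduced_toWord
  obtain ⟨x, l, hxl⟩ := List.exists_cons_of_ne_nil hw
  -- the last letter
  set y := z.toWord.getLast hw with hy
  obtain ⟨c, hc⟩ : ∃ c : α, c ≠ x.1 := by
    by_cases h : a = x.1
    · exact ⟨b, fun h' => hab (h.trans h'.symm)⟩
    · exact ⟨a, h⟩
  let g : FreeGroup α := FreeGroup.mk [(c, y.2)]
  have hg : g.toWord = [(c, y.2)] := by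
    show (FreeGroup.mk [(c, y.2)]).toWord = _
    rw [FreeGroup.toWord_mk, FreeGroup.reduce_singleton]
  have h1 : (g * z).toWord = (c, y.2) :: z.toWord := by
    rw [FreeGroup.toWord_mul, hg]
    apply FreeGroup.IsReduced.reduce_eq
    rw [List.singleton_append, hxl]
    rw [hxl] at hred
    refine List.isChain_cons_cons.2 ⟨?_, hred⟩
    intro h
    exact absurd h hc
  have h2 : (z * g).toWord = z.toWord ++ [(c, y.2)] := by
    rw [FreeGroup.toWord_mul, hg]
    apply FreeGroup.IsReduced.reduce_eq
    refine List.isChain_append.2 ⟨hred, List.isChain_singleton _, ?_⟩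
    intro p hp q hq h
    simp only [List.head?_cons, Option.mem_def, Option.some.injEq] at hq
    have hp' : p = y := by
      rw [List.getLast?_eq_getLast_of_ne_nil hw] at hp
      simpa using hp.symm
    rw [← hq, hp']
  have h3 : (c, y.2) :: z.toWord = z.toWord ++ [(c, y.2)] := by
    rw [← h1, ← h2, hz g]
  rw [hxl] at h3
  simp only [List.cons_append, List.cons.injEq] at h3
  exact hc (by rw [← h3.1])

/-- The centre of a noncommutative free group is trivial. -/
theorem center_eq_bot (P : Type u) [Group P] [IsFreeGroup P]
    (hP : ¬ ∀ x y : P, x * y = y * x) : center P = ⊥ := by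
  classical
  let e := IsFreeGroup.toFreeGroup P
  have hne : ∃ a b : IsFreeGroup.Generators P, a ≠ b := by
    by_contra hcon
    push Not at hcon
    apply hP
    haveI : Subsingleton (IsFreeGroup.Generators P) := ⟨hcon⟩
    have key : ∀ x y : FreeGroup (IsFreeGroup.Generators P), x * y = y * x := by
      intro x y
      rcases isEmpty_or_nonempty (IsFreeGroup.Generators P) with he | ⟨⟨a⟩⟩
      · haveI := he
        exact Subsingleton.elim _ _
      · have hcy : ∀ z : FreeGroup (IsFreeGroup.Generators P), z ∈ Subgroup.zpowers
            (FreeGroup.of a) := by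
          intro z
          induction z using FreeGroup.induction_on with
          | C1 => exact one_mem _
          | of b => rw [Subsingleton.elim b a]; exact Subgroup.mem_zpowers _
          | inv_of b hb => exact inv_mem hb
          | mul s t hs ht => exact mul_mem hs ht
        obtain ⟨m, rfl⟩ := hcy x
        obtain ⟨n, rfl⟩ := hcy y
        show FreeGroup.of a ^ m * FreeGroup.of a ^ n = FreeGroup.of a ^ n * FreeGroup.of a ^ m
        rw [← zpow_add, ← zpow_add, add_comm]
    intro x y
    apply e.injective
    rw [map_mul, map_mul]
    exact key _ _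
  obtain ⟨a, b, hab⟩ := hne
  rw [eq_bot_iff]
  intro z hz
  have hz' : e z = 1 := by
    apply center_free hab
    intro g
    obtain ⟨p, rfl⟩ := e.surjective g
    rw [← map_mul, ← map_mul, Subgroup.mem_center_iff.1 hz p]
  have : z = 1 := by
    apply e.injective
    rw [hz', map_one]
  exact this

/-- all terms of the upper central series of a noncommutative free group are trivial -/
theorem ucs_eq_bot (P : Type u) [Group P] [IsFreeGroup P]
    (hP : ¬ ∀ x y : P, x * y = y * x) (n : ℕ) : Subgroup.upperCentralSeries P n = ⊥ := by
  induction n with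
  | zero => rfl
  | succ n ih =>
    rw [eq_bot_iff]
    intro x hx
    rw [Subgroup.mem_upperCentralSeries_succ_iff] at hx
    have : x ∈ center P := by
      rw [Subgroup.mem_center_iff]
      intro g
      have h := hx g
      rw [ih, Subgroup.mem_bot, commutatorElement_eq_one_iff_mul_comm] at h
      exact h.symm
    rwa [center_eq_bot P hP] at this

/-- the quotient by a kernel is free if the target is free -/
theorem free_quotient_ker {K : Type u} {F : Type v} [Group K] [Group F] [IsFreeGroup F]
    (f : K →* F) : IsFreeGroup (K ⧸ f.ker) :=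
  IsFreeGroup.ofMulEquiv (QuotientGroup.quotientKerEquivRange f).symm

/-- Let `K` be a group with homomorphisms to a free group and to a nilpotent group that are
jointly injective.  Then `K` modulo some term of its upper central series is free. -/
theorem exists_free_quotient {K : Type u} {F : Type v} {H : Type w} [Group K] [Group F] [Group H]
    [IsFreeGroup F] [Group.IsNilpotent H] (f : K →* F) (ψ : K →* H)
    (hinj : ∀ x, f x = 1 → ψ x = 1 → x = 1) :
    ∃ c, IsFreeGroup (K ⧸ Subgroup.upperCentralSeries K c) := by
  have h1 : ∀ (i : ℕ) (x : K), f x = 1 → ψ x ∈ Subgroup.upperCentralSeries H i →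
      x ∈ Subgroup.upperCentralSeries K i := by
    intro i
    induction i with
    | zero =>
      intro x hx hx'
      have hx'' : ψ x = 1 := hx'
      exact hinj x hx hx''
    | succ i ih =>
      intro x hx hx'
      rw [Subgroup.mem_upperCentralSeries_succ_iff] at hx' ⊢
      intro y
      apply ih
      · rw [map_commutatorElement, hx, commutatorElement_one_left]
      · rw [map_commutatorElement]
        exact hx' _
  obtain ⟨c, hc⟩ := Group.IsNilpotent.nilpotent H
  have h2 : f.ker ≤ Subgroup.upperCentralSeries K c := by
    intro x hx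
    apply h1 c x hx
    rw [hc]
    exact Subgroup.mem_top _
  refine ⟨c + 1, ?_⟩
  by_cases hcom : ∀ x y : f.range, x * y = y * x
  · have h3 : Subgroup.upperCentralSeries K (c + 1) = ⊤ := by
      rw [eq_top_iff]
      intro x _
      rw [Subgroup.mem_upperCentralSeries_succ_iff]
      intro y
      apply h2
      rw [MonoidHom.mem_ker, map_commutatorElement, commutatorElement_eq_one_iff_mul_comm]
      exact congrArg Subtype.val (hcom ⟨f x, x, rfl⟩ ⟨f y, y, rfl⟩)
    haveI : Subsingleton (K ⧸ Subgroup.upperCentralSeries K (c + 1)) :=
      ⟨fun a b => by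
        obtain ⟨a, rfl⟩ := QuotientGroup.mk_surjective a
        obtain ⟨b, rfl⟩ := QuotientGroup.mk_surjective b
        refine QuotientGroup.eq.2 ?_
        rw [h3]
        exact Subgroup.mem_top _⟩
    haveI : Unique (K ⧸ Subgroup.upperCentralSeries K (c + 1)) := Unique.mk' _
    exact IsFreeGroup.ofMulEquiv (MulEquiv.ofUnique (M := FreeGroup PEmpty.{u+1}))
  · have h3 : Subgroup.upperCentralSeries K (c + 1) = f.ker := by
      apply le_antisymm
      · intro x hx
        have h4 := Subgroup.upperCentralSeries.map (f := f.rangeRestrict) f.rangeRestrict_surjective (c + 1)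
          (Subgroup.mem_map_of_mem _ hx)
        rw [ucs_eq_bot f.range hcom, Subgroup.mem_bot] at h4
        exact congrArg Subtype.val h4
      · exact h2.trans (Subgroup.upperCentralSeries_mono K (Nat.le_succ c))
    haveI := free_quotient_ker f
    exact IsFreeGroup.ofMulEquiv (QuotientGroup.quotientMulEquivOfEq h3).symm

/-- a surjection whose kernel is the centre shifts the upper central series -/
theorem comap_ucs {K : Type u} {K' : Type v} [Group K] [Group K'] (θ : K →* K')
    (hθ : Function.Surjective θ) (hker : θ.ker = center K) (n : ℕ) :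
    (Subgroup.upperCentralSeries K' n).comap θ = Subgroup.upperCentralSeries K (n + 1) := by
  induction n with
  | zero =>
    rw [Subgroup.upperCentralSeries_one, ← hker]
    rfl
  | succ n ih =>
    ext x
    rw [Subgroup.mem_upperCentralSeries_succ_iff, Subgroup.mem_comap, Subgroup.mem_upperCentralSeries_succ_iff]
    constructor
    · intro h y
      rw [← ih, Subgroup.mem_comap, map_commutatorElement]
      exact h _
    · intro h y'
      obtain ⟨y, rfl⟩ := hθ y'
      have := h y
      rw [← ih, Subgroup.mem_comap, map_commutatorElement] at this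
      exact this

/-- If `G` has a normal subgroup `K` of finite index such that `K` modulo some term of its upper
central series is free, then positive relations in `G` are finitely based. -/
theorem FR_of_ucs (c : ℕ) : ∀ (G : Type u) [Group G] (K : Subgroup G) [K.Normal] [K.FiniteIndex],
    IsFreeGroup (K ⧸ Subgroup.upperCentralSeries K c) → FR G := by
  induction c with
  | zero =>
    intro G _ K _ _ hfree
    have hK : IsFreeGroup K := by
      have hfree' : IsFreeGroup (K ⧸ (⊥ : Subgroup K)) := hfree
      haveI := hfree'
      exact IsFreeGroup.ofMulEquiv (QuotientGroup.quotientBot (G := K))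
    exact FR_of_Tri (Tri_of_virtuallyFree K hK)
  | succ c ih =>
    intro G _ K _ _ hfree
    let A : Subgroup G := (center K).map K.subtype
    haveI : A.Normal := ConjAct.normal_of_characteristic_of_normal
    have hAK : A ≤ K := by
      rintro _ ⟨x, _, rfl⟩
      exact x.2
    let π : G →* G ⧸ A := QuotientGroup.mk' A
    have hπker : π.ker = A := QuotientGroup.ker_mk' A
    have hπs : Function.Surjective π := QuotientGroup.mk'_surjective A
    have hcomm : ∀ x ∈ π.ker, ∀ k ∈ K, x * k = k * x := by
      intro x hx k hk
      rw [hπker] at hx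
      obtain ⟨x, hx, rfl⟩ := hx
      have := Subgroup.mem_center_iff.1 hx ⟨k, hk⟩
      exact (congrArg Subtype.val this).symm
    refine FR_of_hom π K (hπker.le.trans hAK) hcomm ?_
    let K' : Subgroup (G ⧸ A) := K.map π
    haveI : K'.Normal := Subgroup.Normal.map inferInstance π hπs
    haveI : K'.FiniteIndex := by
      constructor
      intro h0
      have h1 : K'.index ∣ K.index := Subgroup.index_map_dvd K hπs
      rw [h0, zero_dvd_iff] at h1
      exact Subgroup.FiniteIndex.index_ne_zero h1
    refine ih (G ⧸ A) K' ?_
    let θ : K →* K' := π.subgroupMap K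
    have hθs : Function.Surjective θ := π.subgroupMap_surjective K
    have hθker : θ.ker = center K := by
      ext x
      rw [MonoidHom.mem_ker]
      constructor
      · intro hx
        have hx1 : π (x : G) = 1 := congrArg Subtype.val hx
        have hx2 : (x : G) ∈ A := by
          rw [← hπker]; exact hx1
        obtain ⟨y, hy, hyx⟩ := hx2
        have : y = x := Subtype.ext hyx
        rwa [← this]
      · intro hx
        apply Subtype.ext
        show π (x : G) = 1
        have : (x : G) ∈ π.ker := by
          rw [hπker]; exact ⟨x, hx, rfl⟩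
        exact this
    let τ : K →* K' ⧸ Subgroup.upperCentralSeries K' c :=
      (QuotientGroup.mk' (Subgroup.upperCentralSeries K' c)).comp θ
    have hτs : Function.Surjective τ :=
      (QuotientGroup.mk'_surjective _).comp hθs
    have hτker : τ.ker = Subgroup.upperCentralSeries K (c + 1) := by
      rw [← comap_ucs θ hθs hθker c]
      ext x
      rw [MonoidHom.mem_ker, Subgroup.mem_comap]
      exact QuotientGroup.eq_one_iff _
    haveI := hfree
    haveI : IsFreeGroup (K ⧸ τ.ker) :=
      IsFreeGroup.ofMulEquiv (QuotientGroup.quotientMulEquivOfEq hτker).symm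
    exact IsFreeGroup.ofMulEquiv (QuotientGroup.quotientKerEquivOfSurjective τ hτs)

theorem comap_finiteIndex {G : Type u} {G' : Type v} [Group G] [Group G'] (f : G →* G')
    (H : Subgroup G') [H.FiniteIndex] : (H.comap f).FiniteIndex := by
  constructor
  rw [Subgroup.index_comap]
  have h : (H.subgroupOf f.range).FiniteIndex := inferInstance
  exact h.index_ne_zero

theorem FR_main (G : Type u) [Group G] (N : Subgroup G) [N.FiniteIndex]
    (F : Type v) (H : Type w) [Group F] [Group H]
    (hF : ∃ K : Subgroup F, K.FiniteIndex ∧ IsFreeGroup K)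
    (hH : ∃ K : Subgroup H, K.FiniteIndex ∧ Group.IsNilpotent K)
    (φ : N →* F × H) (hφ : Function.Injective φ) : FR G := by
  obtain ⟨KF, hKF, hfree⟩ := hF
  obtain ⟨KH, hKH, hnil⟩ := hH
  let f0 : N →* F := (MonoidHom.fst F H).comp φ
  let g0 : N →* H := (MonoidHom.snd F H).comp φ
  haveI h1 : (KF.comap f0).FiniteIndex := comap_finiteIndex f0 KF
  haveI h2 : (KH.comap g0).FiniteIndex := comap_finiteIndex g0 KH
  let N0 : Subgroup N := KF.comap f0 ⊓ KH.comap g0
  haveI h3 : N0.FiniteIndex := inferInstance
  let N1 : Subgroup G := N0.map N.subtype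
  haveI h4 : N1.FiniteIndex := by
    constructor
    show (N0.map N.subtype).index ≠ 0
    rw [Subgroup.index_map_subtype]
    exact mul_ne_zero h3.index_ne_zero Subgroup.FiniteIndex.index_ne_zero
  let K : Subgroup G := N1.normalCore
  have hKN1 : K ≤ N1 := N1.normalCore_le
  have hmem : ∀ x : K, ∃ y : N, y ∈ N0 ∧ (y : G) = x := fun x => hKN1 x.2
  have hKN : K ≤ N := by
    intro x hx
    obtain ⟨y, _, hy⟩ := hmem ⟨x, hx⟩
    rw [show x = (y : G) from hy.symm]
    exact y.2
  let ι : K →* N := Subgroup.inclusion hKN
  have hι : ∀ x : K, ι x ∈ N0 := by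
    intro x
    obtain ⟨y, hy, hyx⟩ := hmem x
    have : y = ι x := Subtype.ext hyx
    rwa [← this]
  let f : K →* KF := (f0.comp ι).codRestrict KF (fun x => (hι x).1)
  let ψ : K →* KH := (g0.comp ι).codRestrict KH (fun x => (hι x).2)
  have hinj : ∀ x, f x = 1 → ψ x = 1 → x = 1 := by
    intro x hf hψ
    have e1 : (φ (ι x)).1 = 1 := congrArg Subtype.val hf
    have e2 : (φ (ι x)).2 = 1 := congrArg Subtype.val hψ
    have e3 : φ (ι x) = φ 1 := by
      rw [map_one]
      exact Prod.ext e1 e2
    have e4 : ι x = 1 := hφ e3
    have e5 : ((ι x : N) : G) = 1 := by rw [e4]; rfl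
    exact Subtype.ext e5
  haveI := hfree
  haveI := hnil
  obtain ⟨c, hc⟩ := exists_free_quotient f ψ hinj
  exact FR_of_ucs c G K hc

/-- Let `G` be a group and `N` a subgroup of finite index of `G` (for instance a normal one) that
embeds into the direct product of a virtually free group `F` and a virtually nilpotent group `H`.
Then `N` is Malcev coherent, and so is its finite extension `G`. -/
theorem result (G : Type u) [Group G] (N : Subgroup G) [N.FiniteIndex]
    (F : Type v) (H : Type w) [Group F] [Group H]
    (hF : ∃ K : Subgroup F, K.FiniteIndex ∧ IsFreeGroup K)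
    (hH : ∃ K : Subgroup H, K.FiniteIndex ∧ Group.IsNilpotent K)
    (hN : ∃ φ : N →* F × H, Function.Injective φ) :
    MalcevCoherent N ∧ MalcevCoherent G := by
  obtain ⟨φ, hφ⟩ := hN
  constructor
  · refine malcevCoherent_of_FR (FR_main N ⊤ F H hF hH (φ.comp (⊤ : Subgroup N).subtype) ?_)
    exact hφ.comp Subtype.val_injective
  · exact malcevCoherent_of_FR (FR_main G N F H hF hH φ hφ)

end Pool.Agent.Results.MP_7f4e02_al.FiniteExtensionsOfProducts
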